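import Pool.Agent.Run7.h762.GS.Rank

/-!
# The final statements
-/

set_option autoImplicit false

namespace Pool.Agent.Run7.h762.GS

open Pool.Agent.Y95.Q Pool.Agent.Run7.h762.SC
open Pool.Agent.X328.CF (disc_nonneg disc_even disc_mod_three exists_sat)

variable {X : CubicFourfold} {H : H4 X}

/-- the three conditions agree, if the local conditions are sufficient -/
theorem tfae_of (hH : H.IsCohomology) {C : Prop} (h1 : H.HasK3 → C) (h2 : C → Sol H) :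
    (Hilb H ↔ H.HasK3) ∧ (H.HasK3 ↔ C) :=
  ⟨⟨k3_of_hilb hH, fun h => ((h2 (h1 h)).good hH).2⟩,
    ⟨h1, fun h => ((h2 h).good hH).1⟩⟩

theorem main_five (hH : H.IsCohomology) (hr : 5 ≤ H.rank) :
    (Hilb H ↔ H.HasK3) ∧ (H.HasK3 ↔ Loc H) :=
  tfae_of hH loc_of_k3 (rank_five hH hr)

theorem main_four (hH : H.IsCohomology) (hr : 4 ≤ H.rank) {v0 : Fin 23 → ℤ}
    (hv0 : H.IsHodge v0) {s : ℤ} (hs : s ≠ 0) (hd : H.disc v0 = 2 * s ^ 2) :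
    (Hilb H ↔ H.HasK3) ∧ (H.HasK3 ↔ Loc H) :=
  tfae_of hH loc_of_k3 (iso_case hH hr hv0 hs hd)

theorem main_plane (hH : H.IsCohomology) (hP : Nonempty X.Plane) :
    (Hilb H ↔ H.HasK3) ∧ (H.HasK3 ↔ ∃ v, H.IsHodge v ∧ ¬ 4 ∣ H.disc v) := by
  obtain ⟨P⟩ := hP
  obtain ⟨h1, h2, h3⟩ := (hH.cl_range (H.cl P)).1 ⟨P, rfl⟩
  have h8 : H.disc (H.cl P) = 8 := by
    unfold H4.disc
    rw [hH.comm H.h, h2, h3]
    norm_num
  refine tfae_of hH (fun h => (loc_of_k3 h).1) ?_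
  rintro ⟨v, hv, h4⟩
  exact plane_case hH h1 h8 hv h4

theorem main_eighteen (hH : H.IsCohomology) {v0 : Fin 23 → ℤ} (hv0 : H.IsHodge v0)
    (h18 : H.disc v0 = 18) :
    (Hilb H ↔ H.HasK3) ∧
      (H.HasK3 ↔ ∃ v, H.IsHodge v ∧ H.disc v % 18 ≠ 0 ∧ H.disc v % 18 ≠ 12) := by
  refine tfae_of hH (fun h => (loc_of_k3 h).2.1) ?_
  rintro ⟨v, hv, h0, h12⟩
  exact eighteen_case hH hv0 h18 hv h0 h12

theorem main_thirteen (hH : H.IsCohomology) (hr : 13 ≤ H.rank) : Hilb H ∧ H.HasK3 := by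
  obtain ⟨h1, h2⟩ := main_five hH (by omega)
  have h3 := h2.2 (loc_of_rank hH hr)
  exact ⟨h1.2 h3, h3⟩

end Pool.Agent.Run7.h762.GS
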