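import Pool.Agent.Run7.h762.GS.LG

/-!
# From the local conditions to a solution, with Dirichlet's theorem
-/

set_option autoImplicit false

namespace Pool.Agent.Run7.h762.GS

namespace Lat

variable {M : Type*} [AddCommGroup M] (L : Lat M)

theorem b_zero_right (v : M) : L.b v 0 = 0 := by
  have := L.smul_right 0 v 0
  rwa [zero_smul, zero_mul] at this

/-- **The local-global theorem.** -/
theorem global {v0 w1 w2 : M} {s : ℤ} (hs : s ≠ 0) (h0 : L.b v0 v0 = 2 * s ^ 2)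
    (h1 : L.b v0 w1 = 0) (h2 : L.b v0 w2 = 0) (h12 : L.b w1 w2 = 0)
    (hw1 : L.b w1 w1 ≠ 0) (hw2 : L.b w2 w2 ≠ 0)
    (hloc : ∀ p : ℕ, p.Prime → (p : ℤ) ∣ 2 * s → L.LC v0 s p) :
    ∃ (m : ℤ) (v : M), m ^ 2 + 3 = 2 * L.b v v := by
  classical
  have h2s : 2 * s ≠ 0 := mul_ne_zero two_ne_zero hs
  set S : Finset ℕ := (2 * s).natAbs.primeFactors with hS
  have hmemS : ∀ p : ℕ, p ∈ S ↔ p.Prime ∧ (p : ℤ) ∣ 2 * s := by
    intro p
    rw [hS, Nat.mem_primeFactors]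
    constructor
    · rintro ⟨h1, h2, -⟩
      exact ⟨h1, Int.natCast_dvd.2 h2⟩
    · rintro ⟨h1, h2⟩
      exact ⟨h1, Int.natCast_dvd.1 h2, Int.natAbs_ne_zero.2 h2s⟩
  have h2S : 2 ∈ S := (hmemS 2).2 ⟨Nat.prime_two, by push_cast; exact dvd_mul_right _ _⟩
  have hloc' : ∀ p ∈ S, L.LC v0 s p := fun p hp => hloc p ((hmemS p).1 hp).1 ((hmemS p).1 hp).2
  have hprS : ∀ p ∈ S, p.Prime := fun p hp => ((hmemS p).1 hp).1
  have hprI : ∀ p ∈ S, Prime (p : ℤ) := fun p hp => Nat.prime_iff_prime_int.1 (hprS p hp)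
  unfold LC at hloc'
  choose! x j hx1 hx2 hx3 using hloc'
  have hcop : ∀ p ∈ S, ∀ q ∈ S, p ≠ q → IsCoprime (p : ℤ) (q : ℤ) := by
    intro p hp q hq hpq
    exact Nat.isCoprime_iff_coprime.2 ((Nat.coprime_primes (hprS p hp) (hprS q hq)).2 hpq)
  obtain ⟨X, hX⟩ := crt S (fun p => (p : ℤ) ^ (j p + 3))
    (fun p hp q hq hpq => (hcop p hp q hq hpq).pow) x
  -- the properties of `X`
  have hX1 : ∀ p ∈ S, (p : ℤ) ^ j p ∣ L.e v0 s X := by
    intro p hp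
    obtain ⟨y, hy⟩ := hX p hp
    rw [hy, L.e_add, L.e_smul]
    exact dvd_add (hx1 p hp) ((pow_dvd_pow _ (by omega)).mul_right _)
  have hX2 : ∀ p ∈ S, ¬ (p : ℤ) ^ (j p + 1) ∣ L.e v0 s X := by
    intro p hp h
    obtain ⟨y, hy⟩ := hX p hp
    rw [hy, L.e_add, L.e_smul] at h
    exact hx2 p hp ((dvd_add_left ((pow_dvd_pow _ (by omega)).mul_right _)).1 h)
  have hX3 : ∀ p ∈ S, (p : ℤ) ^ (j p + if p = 2 then 2 else 0) ∣ L.f X + 3 := by
    intro p hp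
    obtain ⟨y, hy⟩ := hX p hp
    have h3 := L.f_shift ((p : ℤ) ^ (j p + 3)) (x p) y
    rw [← hy] at h3
    have e1 : L.f X + 3 = (L.f X - L.f (x p)) + (L.f (x p) + 3) := by ring
    rw [e1]
    refine dvd_add ((pow_dvd_pow _ ?_).trans h3) (hx3 p hp)
    split_ifs <;> omega
  -- the products
  set E : ℤ := ∏ p ∈ S, (p : ℤ) ^ j p with hE
  set C : ℤ := ∏ p ∈ S, (p : ℤ) ^ 3 with hC
  have h4E : ∏ p ∈ S, (p : ℤ) ^ (j p + if p = 2 then 2 else 0) = 4 * E := by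
    have e1 : ∀ p ∈ S, (p : ℤ) ^ (j p + if p = 2 then 2 else 0) =
        (p : ℤ) ^ j p * if p = 2 then 4 else 1 := by
      intro p _
      rw [pow_add]
      split_ifs with h
      · subst h
        norm_num
      · rw [pow_zero]
    rw [Finset.prod_congr rfl e1, Finset.prod_mul_distrib, Finset.prod_ite_eq' S 2, if_pos h2S,
      mul_comm]
  have hE0 : E ≠ 0 := Finset.prod_ne_zero_iff.2 fun p hp =>
    pow_ne_zero _ (by exact_mod_cast (hprS p hp).ne_zero)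
  have hC0 : C ≠ 0 := Finset.prod_ne_zero_iff.2 fun p hp =>
    pow_ne_zero _ (by exact_mod_cast (hprS p hp).ne_zero)
  have hEe : E ∣ L.e v0 s X := Finset.prod_dvd_of_coprime
    (fun p hp q hq hpq => (hcop p hp q hq hpq).pow) hX1
  have hf4 : 4 * E ∣ L.f X + 3 := by
    rw [← h4E]
    exact Finset.prod_dvd_of_coprime (fun p hp q hq hpq => (hcop p hp q hq hpq).pow) hX3
  obtain ⟨u, hu⟩ := hEe
  have hpu : ∀ p ∈ S, ¬ (p : ℤ) ∣ u := by
    rintro p hp ⟨c, hc⟩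
    apply hX2 p hp
    obtain ⟨d, hd⟩ : (p : ℤ) ^ j p ∣ E := Finset.dvd_prod_of_mem (fun p : ℕ => (p : ℤ) ^ j p) hp
    exact ⟨d * c, by rw [hu, hc, hd]; ring⟩
  have h4C : 4 ∣ C := by
    have h8 : ((2 : ℕ) : ℤ) ^ 3 ∣ C := Finset.dvd_prod_of_mem (fun p : ℕ => (p : ℤ) ^ 3) h2S
    exact (by norm_num : (4 : ℤ) ∣ ((2 : ℕ) : ℤ) ^ 3).trans h8
  have hEC : 4 * E ∣ E * C := by
    rw [mul_comm 4 E]
    exact mul_dvd_mul_left E h4C
  -- Dirichlet
  set Q : ℤ := s * C with hQ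
  have hQ0 : Q ≠ 0 := mul_ne_zero hs hC0
  have hco : IsCoprime (Q.natAbs : ℤ) u := by
    rw [Int.isCoprime_iff_gcd_eq_one, Int.gcd_eq_natAbs, Int.natAbs_natCast]
    refine Nat.Coprime.gcd_eq_one (Nat.Coprime.symm ?_)
    refine Nat.coprime_of_dvd' fun p hp hpu1 hpQ => ?_
    exfalso
    have hpu2 : (p : ℤ) ∣ u := Int.natCast_dvd.2 hpu1
    have hpQ2 : (p : ℤ) ∣ s * C := Int.natCast_dvd.2 hpQ
    rcases (Nat.prime_iff_prime_int.1 hp).dvd_or_dvd hpQ2 with h | h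
    · exact hpu p ((hmemS p).2 ⟨hp, h.mul_left _⟩) hpu2
    · obtain ⟨q, hq, hpq⟩ := (Nat.prime_iff_prime_int.1 hp).exists_mem_finset_dvd h
      have h3 : (p : ℤ) ∣ (q : ℤ) := (Nat.prime_iff_prime_int.1 hp).dvd_of_dvd_pow hpq
      have h4 : p ∣ q := by exact_mod_cast h3
      have h5 : p = q := (Nat.prime_dvd_prime_iff_eq hp (hprS q hq)).1 h4
      exact hpu p (h5 ▸ hq) hpu2
  have hunit : IsUnit ((u : ℤ) : ZMod Q.natAbs) := (ZMod.coe_int_isUnit_iff_isCoprime u _).2 hco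
  have : NeZero Q.natAbs := ⟨Int.natAbs_ne_zero.2 hQ0⟩
  set P : ℤ := E * C with hP
  have hP0 : P ≠ 0 := mul_ne_zero hE0 hC0
  set R : ℤ := 2 * P ^ 2 * L.b w1 w1 * L.b w2 w2 with hR
  have hR0 : R ≠ 0 := mul_ne_zero (mul_ne_zero (mul_ne_zero two_ne_zero (pow_ne_zero 2 hP0)) hw1) hw2
  obtain ⟨q, hqR, hq, hqu⟩ := Nat.forall_exists_prime_gt_and_eq_mod hunit R.natAbs
  have hqI := Nat.prime_iff_prime_int.1 hq
  have hqnR : ¬ (q : ℤ) ∣ R := by
    intro h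
    have h3 := Nat.le_of_dvd (Int.natAbs_pos.2 hR0) (Int.natCast_dvd.1 h)
    omega
  obtain ⟨t, ht⟩ : Q ∣ (q : ℤ) - u := by
    have h3 : ((u : ℤ) : ZMod Q.natAbs) = ((q : ℤ) : ZMod Q.natAbs) := by
      rw [← hqu]
      push_cast
      rfl
    have h4 := (ZMod.intCast_eq_intCast_iff_dvd_sub u (q : ℤ) Q.natAbs).1 h3
    exact Int.natAbs_dvd.1 h4
  -- the first correction
  set x1 : ℤ × M := X + P • ((-t, 0) : ℤ × M) with hx1'
  have he1 : L.e v0 s x1 = E * q := by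
    have e1 : L.e v0 s ((-t, 0) : ℤ × M) = s * t := by
      simp only [e, L.b_zero_right]
      ring
    rw [hx1', L.e_add, L.e_smul, e1, hu, hP]
    have : (q : ℤ) = u + s * C * t := by rw [← hQ]; linear_combination ht
    rw [this]
    ring
  have hf1 : 4 * E ∣ L.f x1 + 3 := by
    have h3 := L.f_shift P X ((-t, 0) : ℤ × M)
    have e1 : L.f x1 + 3 = (L.f x1 - L.f X) + (L.f X + 3) := by ring
    rw [e1]
    exact dvd_add (hEC.trans h3) hf4
  -- the second correction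
  have hq2 : q ≠ 2 := by
    rintro rfl
    apply hqnR
    rw [hR]
    exact ⟨P ^ 2 * L.b w1 w1 * L.b w2 w2, by push_cast; ring⟩
  have := Fact.mk hq
  obtain ⟨α, β, hαβ⟩ := two_var q hq2 (-2 * P ^ 2 * L.b w1 w1) (-2 * P ^ 2 * L.b w2 w2)
    (-4 * P * L.b x1.2 w1) (L.f x1 + 3) (-4 * P * L.b x1.2 w2)
    (fun h => hqnR (by
      have : R = -2 * P ^ 2 * L.b w1 w1 * (-L.b w2 w2) := by rw [hR]; ring
      rw [this]
      exact h.mul_right _))
    (fun h => hqnR (by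
      have : R = -2 * P ^ 2 * L.b w2 w2 * (-L.b w1 w1) := by rw [hR]; ring
      rw [this]
      exact h.mul_right _))
  set x2 : ℤ × M := x1 + P • ((0, α • w1 + β • w2) : ℤ × M) with hx2'
  have he2 : L.e v0 s x2 = E * q := by
    have e1 : L.e v0 s ((0, α • w1 + β • w2) : ℤ × M) = 0 := by
      simp only [e, L.add_right, L.smul_right, h1, h2]
      ring
    rw [hx2', L.e_add, L.e_smul, e1, he1]
    ring
  have hf2 : 4 * E ∣ L.f x2 + 3 := by
    have h3 := L.f_shift P x1 ((0, α • w1 + β • w2) : ℤ × M)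
    have e1 : L.f x2 + 3 = (L.f x2 - L.f x1) + (L.f x1 + 3) := by ring
    rw [e1]
    exact dvd_add (hEC.trans h3) hf1
  have hq3 : (q : ℤ) ∣ L.f x2 + 3 := by
    have e1 : L.f x2 + 3 = -2 * P ^ 2 * L.b w1 w1 * α ^ 2 + -4 * P * L.b x1.2 w1 * α +
        (L.f x1 + 3) + (-2 * P ^ 2 * L.b w2 w2 * β ^ 2 + -4 * P * L.b x1.2 w2 * β) := by
      rw [hx2', L.f_add_smul]
      simp only [f, L.add_right, L.add_left, L.smul_right, L.smul_left, h12, L.comm w2 w1]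
      ring
    rw [e1]
    exact hαβ
  have hcoq : IsCoprime (4 * E) (q : ℤ) := by
    refine (hqI.coprime_iff_not_dvd.2 fun h => hqnR ?_).symm
    have h3 : (q : ℤ) ∣ P := h.trans hEC
    rw [hR]
    refine Dvd.dvd.mul_right (Dvd.dvd.mul_right (Dvd.dvd.mul_left ?_ _) _) _
    exact h3.trans (dvd_pow_self _ two_ne_zero)
  refine L.last h0 (x := x2) ?_
  rw [he2, ← mul_assoc]
  exact hcoq.mul_dvd hf2 hq3

end Lat

end Pool.Agent.Run7.h762.GS
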