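import Pool.Agent.Run7.h762.GS.NT

/-!
# A local-global theorem for the equation `m ^ 2 + 3 = 2 b(v, v)`
-/

set_option autoImplicit false

namespace Pool.Agent.Run7.h762.GS

/-- an even lattice -/
structure Lat (M : Type*) [AddCommGroup M] where
  /-- the form -/
  b : M → M → ℤ
  add_left : ∀ u v w, b (u + v) w = b u w + b v w
  smul_left : ∀ (n : ℤ) (v w : M), b (n • v) w = n * b v w
  comm : ∀ v w, b v w = b w v
  even : ∀ v, 2 ∣ b v v

namespace Lat

variable {M : Type*} [AddCommGroup M] (L : Lat M)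

theorem add_right (u v w : M) : L.b u (v + w) = L.b u v + L.b u w := by
  rw [L.comm, L.add_left, L.comm v, L.comm w]

theorem smul_right (n : ℤ) (v w : M) : L.b v (n • w) = n * L.b v w := by
  rw [L.comm, L.smul_left, L.comm]

/-- the indefinite form -/
def f (x : ℤ × M) : ℤ := x.1 ^ 2 - 2 * L.b x.2 x.2

/-- the linear form -/
def e (v0 : M) (s : ℤ) (x : ℤ × M) : ℤ := L.b v0 x.2 - s * x.1

theorem e_add (v0 : M) (s : ℤ) (x y : ℤ × M) : L.e v0 s (x + y) = L.e v0 s x + L.e v0 s y := by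
  simp only [e, Prod.snd_add, Prod.fst_add, L.add_right]
  ring

theorem e_smul (v0 : M) (s : ℤ) (n : ℤ) (x : ℤ × M) : L.e v0 s (n • x) = n * L.e v0 s x := by
  simp only [e, Prod.smul_snd, Prod.smul_fst, L.smul_right, smul_eq_mul]
  ring

theorem f_smul (n : ℤ) (x : ℤ × M) : L.f (n • x) = n ^ 2 * L.f x := by
  simp only [f, Prod.smul_snd, Prod.smul_fst, L.smul_right, L.smul_left, smul_eq_mul]
  ring

theorem f_add_smul (n : ℤ) (x y : ℤ × M) :
    L.f (x + n • y) = L.f x + n * (2 * x.1 * y.1 - 4 * L.b x.2 y.2 + n * L.f y) := by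
  simp only [f, Prod.snd_add, Prod.fst_add, Prod.smul_snd, Prod.smul_fst, L.smul_right,
    L.smul_left, smul_eq_mul, L.add_right, L.add_left, L.comm y.2 x.2]
  ring

theorem f_shift (n : ℤ) (x y : ℤ × M) : n ∣ L.f (x + n • y) - L.f x :=
  ⟨2 * x.1 * y.1 - 4 * L.b x.2 y.2 + n * L.f y, by rw [L.f_add_smul]; ring⟩

/-- the last step -/
theorem last {v0 : M} {s : ℤ} (h0 : L.b v0 v0 = 2 * s ^ 2) {x : ℤ × M}
    (hx : 4 * L.e v0 s x ∣ L.f x + 3) : ∃ (m : ℤ) (v : M), m ^ 2 + 3 = 2 * L.b v v := by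
  obtain ⟨t, ht⟩ := hx
  refine ⟨x.1 + 2 * s * t, x.2 + t • v0, ?_⟩
  rw [L.add_left, L.add_right, L.add_right, L.smul_left, L.smul_left, L.smul_right, L.smul_right,
    h0, L.comm x.2 v0]
  simp only [f, e] at ht
  linear_combination ht

/-- the local condition at `p` for given data -/
def LC (v0 : M) (s : ℤ) (p : ℕ) : Prop := ∃ (x : ℤ × M) (j : ℕ), (p : ℤ) ^ j ∣ L.e v0 s x ∧
  ¬ (p : ℤ) ^ (j + 1) ∣ L.e v0 s x ∧ (p : ℤ) ^ (j + if p = 2 then 2 else 0) ∣ L.f x + 3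

/-- The local condition at two. -/
theorem lc_two {v0 : M} {s : ℤ} (hs : s ≠ 0) {u : M} (hu : ¬ 4 ∣ L.b u u) : L.LC v0 s 2 := by
  obtain ⟨j0, h1, h2⟩ := exists_exact' 2 Nat.prime_two s hs
  have h8 : 8 ∣ (2 * L.b u u - 3) - 1 := by
    have := L.even u
    omega
  obtain ⟨l, hl, hl2⟩ := sqrt_two (j0 + 3) _ h8
  push_cast at h1 h2
  have key : ∃ σ : ℤ, σ ^ 2 = 1 ∧ ¬ (2 : ℤ) ^ (j0 + 1 + 1) ∣ L.e v0 s (σ * l, u) := by
    by_contra hcon
    push Not at hcon
    have a1 := hcon 1 (by norm_num)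
    have a2 := hcon (-1) (by norm_num)
    have a3 := dvd_sub a2 a1
    have e1 : L.e v0 s (-1 * l, u) - L.e v0 s (1 * l, u) = 2 * (s * l) := by
      simp only [e]
      ring
    rw [e1, pow_succ', mul_dvd_mul_iff_left two_ne_zero] at a3
    exact h2 ((Int.prime_two.coprime_iff_not_dvd.2 hl2).pow_left.dvd_of_dvd_mul_right a3)
  obtain ⟨σ, hσ, hσ2⟩ := key
  obtain ⟨j, hj, h3, h4⟩ := exists_exact 2 _ (j0 + 1) hσ2
  refine ⟨(σ * l, u), j, h3, h4, ?_⟩
  rw [if_pos rfl]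
  have e2 : L.f (σ * l, u) + 3 = l ^ 2 - (2 * L.b u u - 3) := by
    simp only [f]
    linear_combination l ^ 2 * hσ
  rw [e2]
  push_cast
  exact (pow_dvd_pow _ (by omega)).trans hl

/-- The local condition at three, first case. -/
theorem lc_three {v0 : M} {s : ℤ} (hs : s ≠ 0) {u : M} (hu : 3 ∣ L.b u u - 2) :
    L.LC v0 s 3 := by
  obtain ⟨j0, h1, h2⟩ := exists_exact' 3 Nat.prime_three s hs
  have h8 : ((3 : ℕ) : ℤ) ∣ (2 * L.b u u - 3) - 1 := by
    push_cast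
    omega
  obtain ⟨l, hl, hl2⟩ := sqrt_odd 3 Nat.prime_three (by norm_num) (j0 + 3) _ h8
  push_cast at h1 h2 hl hl2
  have h3p : Prime (3 : ℤ) := Int.prime_three
  have key : ∃ σ : ℤ, σ ^ 2 = 1 ∧ ¬ (3 : ℤ) ^ (j0 + 1) ∣ L.e v0 s (σ * l, u) := by
    by_contra hcon
    push Not at hcon
    have a1 := hcon 1 (by norm_num)
    have a2 := hcon (-1) (by norm_num)
    have a3 := dvd_sub a2 a1
    have e1 : L.e v0 s (-1 * l, u) - L.e v0 s (1 * l, u) = s * (2 * l) := by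
      simp only [e]
      ring
    rw [e1] at a3
    have hl3 : ¬ (3 : ℤ) ∣ 2 * l := by omega
    exact h2 ((h3p.coprime_iff_not_dvd.2 hl3).pow_left.dvd_of_dvd_mul_right a3)
  obtain ⟨σ, hσ, hσ2⟩ := key
  obtain ⟨j, hj, h3, h4⟩ := exists_exact 3 _ j0 hσ2
  refine ⟨(σ * l, u), j, h3, h4, ?_⟩
  rw [if_neg (by norm_num)]
  have e2 : L.f (σ * l, u) + 3 = l ^ 2 - (2 * L.b u u - 3) := by
    simp only [f]
    linear_combination l ^ 2 * hσ
  rw [e2]
  push_cast
  exact (pow_dvd_pow _ (by omega)).trans hl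

/-- The local condition at three, second case. -/
theorem lc_three' {v0 : M} {s : ℤ} (hs : s ≠ 0) {u : M} (hu : L.b u u % 18 = 6) :
    L.LC v0 s 3 := by
  obtain ⟨j0, h1, h2⟩ := exists_exact' 3 Nat.prime_three s hs
  obtain ⟨k, hk⟩ : ∃ k, L.b u u = 6 * (3 * k + 1) := ⟨L.b u u / 18, by omega⟩
  obtain ⟨c, hc⟩ := exists_inv 3 Nat.prime_three (j0 + 4) (4 * (3 * k + 1)) (by push_cast; omega)
  have h8 : ((3 : ℕ) : ℤ) ∣ c - 1 := by
    have : ((3 : ℕ) : ℤ) ∣ 4 * (3 * k + 1) * c - 1 := (dvd_pow_self _ (by omega)).trans hc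
    obtain ⟨d, hd⟩ := this
    push_cast at hd ⊢
    refine ⟨d - 4 * k * c - c, ?_⟩
    linear_combination hd
  obtain ⟨l, hl, hl2⟩ := sqrt_odd 3 Nat.prime_three (by norm_num) (j0 + 4) _ h8
  push_cast at h1 h2 hl hl2 hc
  -- `4 (3 k + 1) l ^ 2` is one modulo the power
  have hl4 : (3 : ℤ) ^ (j0 + 4) ∣ 4 * (3 * k + 1) * l ^ 2 - 1 := by
    have e1 : 4 * (3 * k + 1) * l ^ 2 - 1 =
        4 * (3 * k + 1) * (l ^ 2 - c) + (4 * (3 * k + 1) * c - 1) := by ring
    rw [e1]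
    exact dvd_add (hl.mul_left _) hc
  have h3p : Prime (3 : ℤ) := Int.prime_three
  by_cases hA : (3 : ℤ) ^ (j0 + 1 + 1) ∣ L.e v0 s (0, l • u)
  · -- use the other solution
    have hB : ¬ (3 : ℤ) ^ (j0 + 1 + 1) ∣ L.e v0 s (3, (2 * l) • u) := by
      intro h
      have e1 : L.e v0 s (3, (2 * l) • u) = 2 * L.e v0 s (0, l • u) - 3 * s := by
        simp only [e, L.smul_right]
        ring
      rw [e1] at h
      have h5 : (3 : ℤ) ^ (j0 + 1 + 1) ∣ 3 * s := by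
        have := dvd_sub (hA.mul_left 2) h
        rwa [sub_sub_cancel] at this
      rw [pow_succ', mul_dvd_mul_iff_left (by norm_num)] at h5
      exact h2 h5
    obtain ⟨j, hj, h3, h4⟩ := exists_exact 3 _ (j0 + 1) hB
    refine ⟨_, j, h3, h4, ?_⟩
    rw [if_neg (by norm_num)]
    have e2 : L.f (3, (2 * l) • u) + 3 = -12 * (4 * (3 * k + 1) * l ^ 2 - 1) := by
      simp only [f, L.smul_left, L.smul_right, hk]
      ring
    rw [e2]
    push_cast
    exact ((pow_dvd_pow _ (by omega)).trans hl4).mul_left _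
  · obtain ⟨j, hj, h3, h4⟩ := exists_exact 3 _ (j0 + 1) hA
    refine ⟨_, j, h3, h4, ?_⟩
    rw [if_neg (by norm_num)]
    have e2 : L.f (0, l • u) + 3 = -3 * (4 * (3 * k + 1) * l ^ 2 - 1) := by
      simp only [f, L.smul_left, L.smul_right, hk]
      ring
    rw [e2]
    push_cast
    exact ((pow_dvd_pow _ (by omega)).trans hl4).mul_left _

/-- The local condition at the other primes, from a solution modulo `p`. -/
theorem lc_of_mod {v0 : M} {s : ℤ} {p : ℕ} (hp : p.Prime) (hp2 : p ≠ 2)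
    (hp3 : p ≠ 3) {x : ℤ × M} (hx : (p : ℤ) ∣ L.f x + 3) (he : L.e v0 s x ≠ 0) :
    L.LC v0 s p := by
  obtain ⟨j, h1, h2⟩ := exists_exact' p hp _ he
  have hpp := Nat.prime_iff_prime_int.1 hp
  have hp3' : ¬ (p : ℤ) ∣ 3 := by
    intro h
    have : p ∣ 3 := by exact_mod_cast h
    exact hp3 ((Nat.prime_dvd_prime_iff_eq hp Nat.prime_three).1 this)
  have hf : ¬ (p : ℤ) ∣ L.f x := fun h => hp3' ((dvd_add_right h).1 hx)
  obtain ⟨c, hc⟩ := exists_inv p hp (j + 1) (L.f x) hf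
  -- the number `a = -3 c` is one modulo `p`
  have ha : (p : ℤ) ∣ -3 * c - 1 := by
    have h3 : (p : ℤ) ∣ L.f x * c - 1 := (dvd_pow_self _ (by omega)).trans hc
    have e1 : L.f x * (-3 * c - 1) = -3 * (L.f x * c - 1) - (L.f x + 3) := by ring
    have h4 : (p : ℤ) ∣ L.f x * (-3 * c - 1) := by
      rw [e1]
      exact dvd_sub (h3.mul_left _) hx
    exact (hpp.dvd_or_dvd h4).resolve_left hf
  obtain ⟨l, hl, hl2⟩ := sqrt_odd p hp hp2 (j + 1) _ ha
  refine ⟨l • x, j, ?_, ?_, ?_⟩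
  · rw [L.e_smul]
    exact h1.mul_left _
  · rw [L.e_smul]
    intro h
    exact h2 ((hpp.coprime_iff_not_dvd.2 hl2).pow_left.dvd_of_dvd_mul_left h)
  · rw [if_neg hp2, add_zero, L.f_smul]
    have e1 : l ^ 2 * L.f x + 3 = L.f x * (l ^ 2 - -3 * c) + -3 * (L.f x * c - 1) := by ring
    rw [e1]
    exact dvd_add (((pow_dvd_pow _ (by omega)).trans hl).mul_left _)
      (((pow_dvd_pow _ (by omega)).trans hc).mul_left _)

/-- we can always reach a point outside the kernel -/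
theorem lc_of_mod' {v0 : M} {s : ℤ} (hs : s ≠ 0) {p : ℕ} (hp : p.Prime) (hp2 : p ≠ 2)
    (hp3 : p ≠ 3) {x : ℤ × M} (hx : (p : ℤ) ∣ L.f x + 3) : L.LC v0 s p := by
  by_cases he : L.e v0 s x = 0
  · refine L.lc_of_mod hp hp2 hp3 (x := x + (p : ℤ) • ((1, 0) : ℤ × M)) ?_ ?_
    · have h1 := L.f_shift (p : ℤ) x (1, 0)
      have e1 : L.f (x + (p : ℤ) • ((1, 0) : ℤ × M)) + 3 =
        (L.f (x + (p : ℤ) • ((1, 0) : ℤ × M)) - L.f x) + (L.f x + 3) := by ring
      rw [e1]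
      exact dvd_add h1 hx
    · rw [L.e_add, L.e_smul, he, zero_add]
      have hp0 : (p : ℤ) ≠ 0 := by exact_mod_cast hp.ne_zero
      have h00 : L.b v0 (0 : M) = 0 := by
        have := L.smul_right 0 v0 0
        rwa [zero_smul, zero_mul] at this
      have : L.e v0 s ((1, 0) : ℤ × M) = -s := by
        simp only [e, h00]
        ring
      rw [this]
      exact mul_ne_zero hp0 (neg_ne_zero.2 hs)
  · exact L.lc_of_mod hp hp2 hp3 hx he

/-- a quadratic polynomial in two separate variables has a zero modulo a prime -/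
theorem two_var (p : ℕ) [Fact p.Prime] (hp2 : p ≠ 2) (a a' c d d' : ℤ) (ha : ¬ (p : ℤ) ∣ a)
    (ha' : ¬ (p : ℤ) ∣ a') : ∃ x y : ℤ, (p : ℤ) ∣ a * x ^ 2 + c * x + d + (a' * y ^ 2 + d' * y) := by
  open Polynomial in
  have hza : ((a : ℤ) : ZMod p) ≠ 0 := fun h => ha ((ZMod.intCast_zmod_eq_zero_iff_dvd a p).1 h)
  have hza' : ((a' : ℤ) : ZMod p) ≠ 0 := fun h =>
    ha' ((ZMod.intCast_zmod_eq_zero_iff_dvd a' p).1 h)
  have hodd : Fintype.card (ZMod p) % 2 = 1 := by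
    rw [ZMod.card]
    exact Nat.odd_iff.1 ((Fact.out : p.Prime).odd_of_ne_two hp2)
  obtain ⟨x, y, hxy⟩ := FiniteField.exists_root_sum_quadratic
    (f := C (a : ZMod p) * X ^ 2 + C (c : ZMod p) * X + C (d : ZMod p))
    (g := C (a' : ZMod p) * X ^ 2 + C (d' : ZMod p) * X + C 0)
    (degree_quadratic hza) (degree_quadratic hza') hodd
  refine ⟨(x.val : ℤ), (y.val : ℤ), ?_⟩
  rw [← ZMod.intCast_zmod_eq_zero_iff_dvd]
  push_cast
  rw [ZMod.natCast_zmod_val, ZMod.natCast_zmod_val]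
  simp only [eval_add, eval_mul, eval_C, eval_pow, eval_X] at hxy
  linear_combination hxy

/-- The local condition at the primes `p ≥ 5` with a class which is not divisible by `p`. -/
theorem lc_five {v0 : M} {s : ℤ} (hs : s ≠ 0) {p : ℕ} (hp : p.Prime) (hp2 : p ≠ 2)
    (hp3 : p ≠ 3) {u : M} (hu : ¬ (p : ℤ) ∣ L.b u u) : L.LC v0 s p := by
  have := Fact.mk hp
  have hpp := Nat.prime_iff_prime_int.1 hp
  have h2u : ¬ (p : ℤ) ∣ -2 * L.b u u := by
    intro h
    rcases hpp.dvd_or_dvd h with h | h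
    · have : p ∣ 2 := by
        have := Int.natAbs_dvd_natAbs.2 h
        simpa using this
      exact hp2 ((Nat.prime_dvd_prime_iff_eq hp Nat.prime_two).1 this)
    · exact hu h
  obtain ⟨x, y, hxy⟩ := two_var p hp2 1 (-2 * L.b u u) 0 3 0
    (fun h => hpp.not_dvd_one h) h2u
  refine L.lc_of_mod' hs hp hp2 hp3 (x := (x, y • u)) ?_
  have e1 : L.f (x, y • u) + 3 = 1 * x ^ 2 + 0 * x + 3 + (-2 * L.b u u * y ^ 2 + 0 * y) := by
    simp only [f, L.smul_left, L.smul_right]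
    ring
  rw [e1]
  exact hxy

/-- The local condition at the primes `p = 1` modulo `3`. -/
theorem lc_one {v0 : M} {s : ℤ} (hs : s ≠ 0) {p : ℕ} (hp : p.Prime) (h3 : p % 3 = 1) :
    L.LC v0 s p := by
  have := Fact.mk hp
  have hp2 : p ≠ 2 := by rintro rfl; norm_num at h3
  have hp3 : p ≠ 3 := by rintro rfl; norm_num at h3
  have hdvd : 3 ∣ Fintype.card (ZMod p)ˣ := by
    rw [ZMod.card_units]
    have := hp.one_lt
    omega
  obtain ⟨z, hz⟩ := exists_prime_orderOf_dvd_card 3 hdvd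
  have hz3 : (z : ZMod p) ^ 3 = 1 := by
    have := pow_orderOf_eq_one z
    rw [hz] at this
    rw [← Units.val_pow_eq_pow_val, this, Units.val_one]
  have hz1 : (z : ZMod p) ≠ 1 := by
    intro h
    have h1 : z = 1 := Units.ext h
    rw [h1, orderOf_one] at hz
    norm_num at hz
  have hq : (z : ZMod p) ^ 2 + z + 1 = 0 := by
    have : ((z : ZMod p) - 1) * ((z : ZMod p) ^ 2 + z + 1) = 0 := by
      linear_combination hz3
    exact (mul_eq_zero.1 this).resolve_left (sub_ne_zero.2 hz1)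
  have h00 : L.b (0 : M) (0 : M) = 0 := by
    have := L.smul_left 0 (0 : M) 0
    rwa [zero_smul, zero_mul] at this
  refine L.lc_of_mod' hs hp hp2 hp3 (x := (2 * ((z : ZMod p).val : ℤ) + 1, 0)) ?_
  rw [← ZMod.intCast_zmod_eq_zero_iff_dvd]
  simp only [f, h00]
  push_cast
  rw [ZMod.natCast_zmod_val]
  linear_combination 4 * hq

end Lat

end Pool.Agent.Run7.h762.GS
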