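import Pool.Agent.Run7.h762.GS.Glob
import Pool.Agent.Run7.h762.SC.Span2
import Pool.Agent.R847.QB.Meyer
import Pool.Agent.R847.QB.Iso
import Pool.Agent.R847.QB.Dir

/-!
# Associated K3 surfaces and Hilbert squares: the local conditions
-/

set_option autoImplicit false

namespace Pool.Agent.Run7.h762.GS

open Finset Pool.Agent.Y95.Q Pool.Agent.Y95.Q.H4 Pool.Agent.Run7.h762.SC
open Pool.Agent.X328.CF (disc_nonneg disc_even disc_mod_three exists_sat)

variable {X : CubicFourfold} {H : H4 X}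

/-- the lattice of the Hodge classes with the discriminant form -/
def lat (hH : H.IsCohomology) : Lat H.hodge where
  b v w := Bf H v w
  add_left u v w := Bf_add_left (H := H) u v w
  smul_left n v w := Bf_smul_left (H := H) n v w
  comm v w := Bf_comm hH v w
  even v := by
    rw [← disc_eq_Bf hH]
    have := disc_even hH (v : Fin 23 → ℤ)
    omega

theorem lat_b (hH : H.IsCohomology) (v w : H.hodge) : (lat hH).b v w = Bf H v w := rfl

/-- there is a solution -/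
def Sol (H : H4 X) : Prop := ∃ (m : ℤ) (v : Fin 23 → ℤ), H.IsHodge v ∧ m ^ 2 + 3 = 2 * H.disc v

theorem sol_of (hH : H.IsCohomology) (h : ∃ (m : ℤ) (v : H.hodge), m ^ 2 + 3 = 2 * (lat hH).b v v) :
    Sol H := by
  obtain ⟨m, v, hv⟩ := h
  refine ⟨m, v, v.2, ?_⟩
  rw [hv, lat_b, disc_eq_Bf hH]

/-- a solution gives an associated K3 surface and a Hilbert square -/
theorem Sol.good (hH : H.IsCohomology) (h : Sol H) : H.HasK3 ∧ Hilb H := by
  obtain ⟨m, v, hv, he⟩ := h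
  have hm : m % 2 = 1 := by
    rcases Int.emod_two_eq_zero_or_one m with h | h
    · obtain ⟨k, hk⟩ : ∃ k, m = 2 * k := ⟨m / 2, by omega⟩
      rw [hk] at he
      ring_nf at he
      omega
    · exact h
  obtain ⟨n, hn⟩ : ∃ n, m = 2 * n + 1 := ⟨m / 2, by omega⟩
  refine hilb_of hH hv (n := n) ?_
  rw [hn] at he
  linarith [he, (by ring : (2 * n + 1) ^ 2 + 3 = 2 * (2 * n ^ 2 + 2 * n + 2))]

/-- the local conditions -/
def Loc (H : H4 X) : Prop :=
  (∃ v, H.IsHodge v ∧ ¬ 4 ∣ H.disc v) ∧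
  (∃ v, H.IsHodge v ∧ H.disc v % 18 ≠ 0 ∧ H.disc v % 18 ≠ 12) ∧
  ∀ p : ℕ, p.Prime → p ≠ 2 → p % 3 = 2 → ∃ v, H.IsHodge v ∧ ¬ (p : ℤ) ∣ H.disc v

theorem loc_of_k3 (h : H.HasK3) : Loc H := by
  obtain ⟨v, hv, -, hA⟩ := h
  refine ⟨⟨v, hv, fun h => not_admissible (Or.inl h) hA⟩,
    ⟨v, hv, fun h => not_admissible (Or.inr (Or.inl h)) hA,
      fun h => not_admissible (Or.inr (Or.inr h)) hA⟩, fun p hp hp2 hp3 => ⟨v, hv, fun h => ?_⟩⟩
  exact hA.2.2.2 p hp hp2 h hp3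

theorem k3_of_hilb (hH : H.IsCohomology) (h : Hilb H) : H.HasK3 := by
  obtain ⟨d, ⟨a, n, h⟩, v, hv, hs, rfl⟩ := h
  have hpos : 0 < H.disc v := by
    by_contra hcon
    push Not at hcon
    have h4 : a ^ 2 * H.disc v ≤ 0 := mul_nonpos_of_nonneg_of_nonpos (by positivity) hcon
    rw [h] at h4
    nlinarith [sq_nonneg (2 * n + 1)]
  exact ⟨v, hv, hs, hH.six_lt hv hpos, four_not_dvd h, nine_not_dvd h,
    fun p hp hp2 hd => prime_mod h hp hp2 hd⟩

/-- orthogonal classes exist -/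
theorem exists_orth {k : ℕ} (hk : k < H.rank) (c : Fin k → Fin 23 → ℤ) :
    ∃ w, H.IsHodge w ∧ w ≠ 0 ∧ ∀ i, H.ip w (c i) = 0 := by
  classical
  let φ : H.hodge →ₗ[ℤ] (Fin k → ℤ) :=
    { toFun := fun w i => H.ip (w : Fin 23 → ℤ) (c i)
      map_add' := fun u v => by
        ext i
        exact H.ip_add_left _ _ _
      map_smul' := fun n v => by
        ext i
        exact H.ip_smul_left _ _ _ }
  have hni : ¬ Function.Injective φ := by
    intro hinj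
    have h1 := LinearMap.finrank_le_finrank_of_injective hinj
    rw [Module.finrank_fin_fun, ← rank_eq] at h1
    omega
  rw [injective_iff_map_eq_zero] at hni
  push Not at hni
  obtain ⟨w, hw, hw0⟩ := hni
  exact ⟨w, w.2, fun h => hw0 (Subtype.ext h), fun i => congrFun hw i⟩

theorem disc_pos_of_prim (hH : H.IsCohomology) {w : Fin 23 → ℤ} (hw : H.IsHodge w) (h0 : w ≠ 0)
    (hp : H.ip w H.h = 0) : 0 < H.disc w := by
  unfold disc
  rw [hH.comm H.h w, hp]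
  have := hH.pos w hw h0
  omega

/-- all local conditions of the local-global theorem -/
theorem lc_all (hH : H.IsCohomology) (hL : Loc H) {v0 : H.hodge} {s : ℤ} (hs : s ≠ 0)
    (p : ℕ) (hp : p.Prime) : (lat hH).LC v0 s p := by
  obtain ⟨⟨u2, hu2, h2⟩, ⟨u3, hu3, h3, h3'⟩, h5⟩ := hL
  by_cases hp2 : p = 2
  · subst hp2
    refine (lat hH).lc_two hs (u := ⟨u2, hu2⟩) ?_
    rw [lat_b, ← disc_eq_Bf hH]
    exact h2
  by_cases hp3 : p = 3
  · subst hp3
    rcases disc_mod_three (H := H) u3 with h | h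
    · refine (lat hH).lc_three' hs (u := ⟨u3, hu3⟩) ?_
      rw [lat_b, ← disc_eq_Bf hH]
      have := disc_even hH u3
      simp only
      omega
    · refine (lat hH).lc_three hs (u := ⟨u3, hu3⟩) ?_
      rw [lat_b, ← disc_eq_Bf hH]
      simp only
      omega
  have hmod : p % 3 = 1 ∨ p % 3 = 2 := by
    have h0 : p % 3 ≠ 0 := by
      intro h
      exact hp3 ((Nat.prime_dvd_prime_iff_eq Nat.prime_three hp).1 (Nat.dvd_of_mod_eq_zero h)).symm
    omega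
  rcases hmod with h | h
  · exact (lat hH).lc_one hs hp h
  · obtain ⟨v, hv, hpv⟩ := h5 p hp hp2 h
    refine (lat hH).lc_five hs hp hp2 hp3 (u := ⟨v, hv⟩) ?_
    rw [lat_b, ← disc_eq_Bf hH]
    exact hpv

/-- **Rank at least four and a class with `2 disc` a square.** -/
theorem iso_case (hH : H.IsCohomology) (hr : 4 ≤ H.rank) {v0 : Fin 23 → ℤ} (hv0 : H.IsHodge v0)
    {s : ℤ} (hs : s ≠ 0) (hd : H.disc v0 = 2 * s ^ 2) (hL : Loc H) : Sol H := by
  obtain ⟨w1, hw1, hw10, hw1o⟩ := exists_orth (H := H) (k := 2) (by omega) ![H.h, v0]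
  obtain ⟨w2, hw2, hw20, hw2o⟩ := exists_orth (H := H) (k := 3) (by omega) ![H.h, v0, w1]
  have a1 : H.ip w1 H.h = 0 := hw1o 0
  have a2 : H.ip w1 v0 = 0 := hw1o 1
  have b1 : H.ip w2 H.h = 0 := hw2o 0
  have b2 : H.ip w2 v0 = 0 := hw2o 1
  have b3 : H.ip w2 w1 = 0 := hw2o 2
  refine sol_of hH ((lat hH).global (v0 := ⟨v0, hv0⟩) (w1 := ⟨w1, hw1⟩) (w2 := ⟨w2, hw2⟩) hs
    ?_ ?_ ?_ ?_ ?_ ?_ fun p hp _ => lc_all hH hL hs p hp)
  · rw [lat_b, ← disc_eq_Bf hH]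
    exact hd
  · rw [lat_b]
    simp only [Bf, a1, hH.comm v0 w1, a2]
    ring
  · rw [lat_b]
    simp only [Bf, b1, hH.comm v0 w2, b2]
    ring
  · rw [lat_b]
    simp only [Bf, b1, hH.comm w1 w2, b3]
    ring
  · rw [lat_b, ← disc_eq_Bf hH]
    exact (disc_pos_of_prim hH hw1 hw10 a1).ne'
  · rw [lat_b, ← disc_eq_Bf hH]
    exact (disc_pos_of_prim hH hw2 hw20 b1).ne'

/-- **Rank at least five: a class with `2 disc` a square exists** (Meyer). -/
theorem exists_isotropic (hH : H.IsCohomology) (hr : 5 ≤ H.rank) :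
    ∃ (v0 : Fin 23 → ℤ) (s : ℤ), H.IsHodge v0 ∧ s ≠ 0 ∧ H.disc v0 = 2 * s ^ 2 := by
  obtain ⟨w1, hw1, hw10, hw1o⟩ := exists_orth (H := H) (k := 1) (by omega) ![H.h]
  obtain ⟨w2, hw2, hw20, hw2o⟩ := exists_orth (H := H) (k := 2) (by omega) ![H.h, w1]
  obtain ⟨w3, hw3, hw30, hw3o⟩ := exists_orth (H := H) (k := 3) (by omega) ![H.h, w1, w2]
  obtain ⟨w4, hw4, hw40, hw4o⟩ := exists_orth (H := H) (k := 4) (by omega) ![H.h, w1, w2, w3]
  have a1 : H.ip w1 H.h = 0 := hw1o 0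
  have b1 : H.ip w2 H.h = 0 := hw2o 0
  have b2 : H.ip w2 w1 = 0 := hw2o 1
  have c1 : H.ip w3 H.h = 0 := hw3o 0
  have c2 : H.ip w3 w1 = 0 := hw3o 1
  have c3 : H.ip w3 w2 = 0 := hw3o 2
  have d1 : H.ip w4 H.h = 0 := hw4o 0
  have d2 : H.ip w4 w1 = 0 := hw4o 1
  have d3 : H.ip w4 w2 = 0 := hw4o 2
  have d4 : H.ip w4 w3 = 0 := hw4o 3
  have p1 := disc_pos_of_prim hH hw1 hw10 a1
  have p2 := disc_pos_of_prim hH hw2 hw20 b1
  have p3 := disc_pos_of_prim hH hw3 hw30 c1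
  have p4 := disc_pos_of_prim hH hw4 hw40 d1
  obtain ⟨x, hx0, hx⟩ := Pool.Agent.R847.QB.meyer Pool.Agent.R847.QB.iso_ Pool.Agent.R847.QB.dir_
    ![1, -2 * H.disc w1, -2 * H.disc w2, -2 * H.disc w3, -2 * H.disc w4]
    (by
      intro i
      fin_cases i <;> simp <;> omega)
    ⟨0, by simp⟩ ⟨1, by simp; omega⟩
  -- clear the denominators
  set D : ℤ := ∏ i, ((x i).den : ℤ) with hD
  have hD0 : D ≠ 0 := Finset.prod_ne_zero_iff.2 fun i _ => by
    exact_mod_cast (x i).den_ne_zero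
  have hy : ∀ i, ∃ y : ℤ, (y : ℚ) = D * x i := by
    intro i
    obtain ⟨c, hc⟩ : ((x i).den : ℤ) ∣ D := Finset.dvd_prod_of_mem _ (Finset.mem_univ i)
    refine ⟨c * (x i).num, ?_⟩
    rw [hc]
    push_cast
    have h1 : (x i) * ((x i).den : ℚ) = (x i).num := Rat.mul_den_eq_num (x i)
    linear_combination -(c : ℚ) * h1
  choose y hyx using hy
  have hyq : (y 0) ^ 2 = 2 * (y 1 ^ 2 * H.disc w1 + y 2 ^ 2 * H.disc w2 + y 3 ^ 2 * H.disc w3 +
      y 4 ^ 2 * H.disc w4) := by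
    have h1 : ((y 0 : ℤ) : ℚ) ^ 2 = 2 * ((y 1 : ℚ) ^ 2 * H.disc w1 + (y 2 : ℚ) ^ 2 * H.disc w2 +
        (y 3 : ℚ) ^ 2 * H.disc w3 + (y 4 : ℚ) ^ 2 * H.disc w4) := by
      simp only [hyx]
      simp only [Fin.sum_univ_five] at hx
      simp at hx
      linear_combination (D : ℚ) ^ 2 * hx
    exact_mod_cast h1
  have hy0 : y 0 ≠ 0 := by
    intro h0
    rw [h0] at hyq
    have q1 : 0 ≤ y 1 ^ 2 * H.disc w1 := by positivity
    have q2 : 0 ≤ y 2 ^ 2 * H.disc w2 := by positivity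
    have q3 : 0 ≤ y 3 ^ 2 * H.disc w3 := by positivity
    have q4 : 0 ≤ y 4 ^ 2 * H.disc w4 := by positivity
    have z1 : y 1 ^ 2 * H.disc w1 = 0 := by linarith
    have z2 : y 2 ^ 2 * H.disc w2 = 0 := by linarith
    have z3 : y 3 ^ 2 * H.disc w3 = 0 := by linarith
    have z4 : y 4 ^ 2 * H.disc w4 = 0 := by linarith
    have e1 : y 1 = 0 := by simpa [p1.ne'] using z1
    have e2 : y 2 = 0 := by simpa [p2.ne'] using z2
    have e3 : y 3 = 0 := by simpa [p3.ne'] using z3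
    have e4 : y 4 = 0 := by simpa [p4.ne'] using z4
    apply hx0
    have hDq : (D : ℚ) ≠ 0 := by exact_mod_cast hD0
    have key : ∀ i, y i = 0 → x i = 0 := by
      intro i hi
      have := hyx i
      rw [hi, Int.cast_zero] at this
      exact (mul_eq_zero.1 this.symm).resolve_left hDq
    funext i
    fin_cases i
    · exact key 0 h0
    · exact key 1 e1
    · exact key 2 e2
    · exact key 3 e3
    · exact key 4 e4
  have heven : y 0 % 2 = 0 := by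
    rcases Int.emod_two_eq_zero_or_one (y 0) with h | h
    · exact h
    · exfalso
      obtain ⟨k, hk⟩ : ∃ k, y 0 = 2 * k + 1 := ⟨y 0 / 2, by omega⟩
      rw [hk] at hyq
      have : (2 * k + 1) ^ 2 = 2 * (2 * k ^ 2 + 2 * k) + 1 := by ring
      omega
  obtain ⟨s, hs⟩ : ∃ s, y 0 = 2 * s := ⟨y 0 / 2, by omega⟩
  refine ⟨y 1 • w1 + y 2 • w2 + (y 3 • w3 + y 4 • w4), s, ?_, ?_, ?_⟩
  · exact H.isHodge_add (H.isHodge_add (H.isHodge_smul _ hw1) (H.isHodge_smul _ hw2))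
      (H.isHodge_add (H.isHodge_smul _ hw3) (H.isHodge_smul _ hw4))
  · rintro rfl
    exact hy0 (by rw [hs]; ring)
  · have e1 : H.disc (y 1 • w1 + y 2 • w2 + (y 3 • w3 + y 4 • w4)) =
        y 1 ^ 2 * H.disc w1 + y 2 ^ 2 * H.disc w2 + y 3 ^ 2 * H.disc w3 + y 4 ^ 2 * H.disc w4 := by
      simp only [disc, ip_add_left, ip_add_right, ip_smul_left, ip_smul_right, hH.comm H.h w1,
        hH.comm H.h w2, hH.comm H.h w3, hH.comm H.h w4, a1, b1, c1, d1, b2, c2, c3, d2, d3, d4,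
        hH.comm w1 w2, hH.comm w1 w3, hH.comm w1 w4, hH.comm w2 w3, hH.comm w2 w4, hH.comm w3 w4]
      ring
    rw [e1]
    rw [hs] at hyq
    linarith [hyq, (by ring : (2 * s) ^ 2 = 2 * (2 * s ^ 2))]

/-- **Rank at least five.** -/
theorem rank_five (hH : H.IsCohomology) (hr : 5 ≤ H.rank) (hL : Loc H) : Sol H := by
  obtain ⟨v0, s, hv0, hs, hd⟩ := exists_isotropic hH hr
  exact iso_case hH (by omega) hv0 hs hd hL

end Pool.Agent.Run7.h762.GS
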