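import Mathlib

/-!
# Square roots modulo prime powers, and a Chinese remainder theorem
-/

set_option autoImplicit false

namespace Pool.Agent.Run7.h762.GS

/-- the exact power of `p` dividing a number -/
theorem exists_exact (p : ℤ) (z : ℤ) (J : ℕ) (h : ¬ p ^ (J + 1) ∣ z) :
    ∃ j ≤ J, p ^ j ∣ z ∧ ¬ p ^ (j + 1) ∣ z := by
  induction J with
  | zero => exact ⟨0, le_rfl, by simp, h⟩
  | succ J ih =>
    by_cases h1 : p ^ (J + 1) ∣ z
    · exact ⟨J + 1, le_rfl, h1, h⟩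
    · obtain ⟨j, hj, h2⟩ := ih h1
      exact ⟨j, by omega, h2⟩

/-- the exact power of `p` dividing a nonzero number -/
theorem exists_exact' (p : ℕ) (hp : p.Prime) (z : ℤ) (hz : z ≠ 0) :
    ∃ j, (p : ℤ) ^ j ∣ z ∧ ¬ (p : ℤ) ^ (j + 1) ∣ z := by
  obtain ⟨J, hJ⟩ : ∃ J : ℕ, ¬ (p : ℤ) ^ (J + 1) ∣ z := by
    refine ⟨z.natAbs, fun h => ?_⟩
    have h1 : p ^ (z.natAbs + 1) ∣ z.natAbs := by
      have := Int.natAbs_dvd_natAbs.2 h
      rwa [Int.natAbs_pow, Int.natAbs_natCast] at this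
    have h2 := Nat.le_of_dvd (Int.natAbs_pos.2 hz) h1
    have h3 : z.natAbs + 1 < p ^ (z.natAbs + 1) := Nat.lt_pow_self hp.one_lt
    omega
  obtain ⟨j, -, h⟩ := exists_exact (p : ℤ) z J hJ
  exact ⟨j, h⟩

/-- square roots modulo powers of an odd prime -/
theorem sqrt_odd (p : ℕ) (hp : p.Prime) (hp2 : p ≠ 2) (N : ℕ) (a : ℤ) (ha : (p : ℤ) ∣ a - 1) :
    ∃ l : ℤ, (p : ℤ) ^ N ∣ l ^ 2 - a ∧ ¬ (p : ℤ) ∣ l := by
  have hodd : Odd p := hp.odd_of_ne_two hp2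
  obtain ⟨r, hr⟩ : Odd (p ^ N) := hodd.pow
  have h1 := dvd_sub_pow_of_dvd_sub (R := ℤ) (p := p) (a := a) (b := 1) ha N
  rw [one_pow] at h1
  refine ⟨a ^ (r + 1), ?_, ?_⟩
  · have e : (a ^ (r + 1)) ^ 2 - a = a * (a ^ p ^ N - 1) := by
      rw [← pow_mul, hr]
      ring
    rw [e]
    exact ((pow_dvd_pow _ (Nat.le_succ N)).trans h1).mul_left _
  · intro h
    have h2 : (p : ℤ) ∣ a := (Nat.prime_iff_prime_int.1 hp).dvd_of_dvd_pow h
    have h3 : (p : ℤ) ∣ 1 := by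
      have := dvd_sub h2 ha
      rwa [sub_sub_cancel] at this
    exact (Nat.prime_iff_prime_int.1 hp).not_dvd_one h3

/-- square roots modulo powers of two -/
theorem sqrt_two (N : ℕ) (a : ℤ) (ha : 8 ∣ a - 1) : ∃ l : ℤ, (2 : ℤ) ^ N ∣ l ^ 2 - a ∧ ¬ 2 ∣ l := by
  have key : ∀ M : ℕ, ∃ l : ℤ, (2 : ℤ) ^ (M + 3) ∣ l ^ 2 - a ∧ ¬ 2 ∣ l := by
    intro M
    induction M with
    | zero =>
      refine ⟨1, ?_, by decide⟩
      have : (1 : ℤ) ^ 2 - a = -(a - 1) := by ring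
      rw [this, dvd_neg]
      norm_num
      exact ha
    | succ M ih =>
      obtain ⟨l, ⟨c, hc⟩, hl⟩ := ih
      by_cases h2 : 2 ∣ c
      · obtain ⟨d, rfl⟩ := h2
        exact ⟨l, ⟨d, by rw [hc]; ring⟩, hl⟩
      · refine ⟨l + 2 ^ (M + 2), ?_, ?_⟩
        · have e : (l + 2 ^ (M + 2)) ^ 2 - a = 2 ^ (M + 3) * (c + l + 2 ^ (M + 1)) := by
            have : (l + 2 ^ (M + 2)) ^ 2 - a = (l ^ 2 - a) + 2 ^ (M + 3) * (l + 2 ^ (M + 1)) := by
              ring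
            rw [this, hc]
            ring
          have h3 : (2 : ℤ) ∣ c + l + 2 ^ (M + 1) := by
            have h4 : (2 : ℤ) ∣ 2 ^ (M + 1) := ⟨2 ^ M, by ring⟩
            omega
          obtain ⟨d, hd⟩ := h3
          exact ⟨d, by rw [e, hd]; ring⟩
        · have h4 : (2 : ℤ) ∣ 2 ^ (M + 2) := ⟨2 ^ (M + 1), by ring⟩
          omega
  obtain ⟨l, h1, h2⟩ := key N
  exact ⟨l, (pow_dvd_pow _ (by omega)).trans h1, h2⟩

/-- inverses modulo prime powers -/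
theorem exists_inv (p : ℕ) (hp : p.Prime) (N : ℕ) (a : ℤ) (ha : ¬ (p : ℤ) ∣ a) :
    ∃ c : ℤ, (p : ℤ) ^ N ∣ a * c - 1 := by
  have h1 : IsCoprime a ((p : ℤ) ^ N) := by
    refine IsCoprime.pow_right ?_
    rw [isCoprime_comm]
    exact (Nat.prime_iff_prime_int.1 hp).coprime_iff_not_dvd.2 ha
  obtain ⟨u, v, h⟩ := h1
  exact ⟨u, ⟨-v, by linear_combination h⟩⟩

/-- **Chinese remainder theorem** for modules. -/
theorem crt {M : Type*} [AddCommGroup M] (S : Finset ℕ) (m : ℕ → ℤ)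
    (hm : ∀ p ∈ S, ∀ q ∈ S, p ≠ q → IsCoprime (m p) (m q)) (x : ℕ → M) :
    ∃ X : M, ∀ p ∈ S, ∃ y : M, X = x p + m p • y := by
  classical
  induction S using Finset.induction_on with
  | empty => exact ⟨0, by simp⟩
  | insert q S hq ih =>
    obtain ⟨X, hX⟩ := ih fun p hp r hr => hm p (Finset.mem_insert_of_mem hp) r
      (Finset.mem_insert_of_mem hr)
    have hco : IsCoprime (∏ p ∈ S, m p) (m q) := by
      refine IsCoprime.prod_left fun p hp => hm p (Finset.mem_insert_of_mem hp) q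
        (Finset.mem_insert_self _ _) ?_
      rintro rfl
      exact hq hp
    obtain ⟨a, b, hab⟩ := hco
    refine ⟨(b * m q) • X + (a * ∏ p ∈ S, m p) • x q, fun p hp => ?_⟩
    rcases Finset.mem_insert.1 hp with rfl | hp
    · refine ⟨b • (X - x p), ?_⟩
      have e : a * ∏ p ∈ S, m p = 1 - b * m p := by linear_combination hab
      rw [e]
      module
    · obtain ⟨y, hy⟩ := hX p hp
      obtain ⟨c, hc⟩ : m p ∣ ∏ p ∈ S, m p := Finset.dvd_prod_of_mem m hp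
      refine ⟨y + (a * c) • (x q - X), ?_⟩
      have e : b * m q = 1 - a * (m p * c) := by rw [← hc]; linear_combination hab
      rw [e, hc]
      have e2 : x p = X - m p • y := by rw [hy]; abel
      rw [e2]
      module

end Pool.Agent.Run7.h762.GS
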