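import Pool.Agent.Run7.h762.GS.Main

/-!
# Cubic fourfolds in `C_8` and in `C_18`
-/

set_option autoImplicit false

namespace Pool.Agent.Run7.h762.GS

open Finset Pool.Agent.Y95.Q Pool.Agent.Y95.Q.H4 Pool.Agent.Run7.h762.SC
open Pool.Agent.X328.CF (disc_nonneg disc_even disc_mod_three exists_sat)

variable {X : CubicFourfold} {H : H4 X}

/-- the last step for two classes -/
theorem step (hH : H.IsCohomology) {v0 w : Fin 23 → ℤ} (hv0 : H.IsHodge v0) (hw : H.IsHodge w)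
    {s k : ℤ} (hd : H.disc v0 = 2 * s ^ 2)
    (h : 4 * (Bf H v0 w - s * k) ∣ k ^ 2 - 2 * H.disc w + 3) : Sol H := by
  refine sol_of hH ((lat hH).last (v0 := ⟨v0, hv0⟩) (s := s) ?_ (x := (k, ⟨w, hw⟩)) ?_)
  · rw [lat_b, ← disc_eq_Bf hH]
    exact hd
  · simp only [Lat.e, Lat.f, lat_b, ← disc_eq_Bf hH]
    exact h

/-- odd squares -/
theorem odd_sq {k : ℤ} (hk : k % 2 = 1) : ∃ t, k ^ 2 = 8 * t + 1 := by
  obtain ⟨i, hi⟩ : ∃ i, k = 2 * i + 1 := ⟨k / 2, by omega⟩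
  obtain ⟨t, ht⟩ : Even (i * (i + 1)) := Int.even_mul_succ_self i
  refine ⟨t, ?_⟩
  rw [hi]
  linear_combination 4 * ht

/-- **`C_8`.** -/
theorem plane_case (hH : H.IsCohomology) {P v : Fin 23 → ℤ} (hP : H.IsHodge P)
    (h8 : H.disc P = 8) (hv : H.IsHodge v) (h4 : ¬ 4 ∣ H.disc v) : Sol H := by
  have hd : H.disc P = 2 * 2 ^ 2 := by rw [h8]; norm_num
  obtain ⟨r, hr⟩ : ∃ r, H.disc v = 4 * r + 2 := ⟨H.disc v / 4, by
    have := disc_even hH v
    omega⟩
  set B : ℤ := Bf H P v with hB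
  rcases Int.emod_two_eq_zero_or_one B with hB2 | hB2
  · obtain ⟨B', hB'⟩ : ∃ B', B = 2 * B' := ⟨B / 2, by omega⟩
    rcases Int.emod_two_eq_zero_or_one B' with hb | hb
    · obtain ⟨t, ht⟩ := odd_sq (k := B' - 1) (by omega)
      refine step hH hP hv (k := B' - 1) hd ?_
      rw [← hB, hB', ht, hr]
      exact ⟨t - r, by ring⟩
    · obtain ⟨t, ht⟩ := odd_sq (k := B' - 2) (by omega)
      obtain ⟨t', ht'⟩ := odd_sq (k := B' + 2) (by omega)
      have hrel : t' = t + B' := by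
        have : (B' + 2) ^ 2 = (B' - 2) ^ 2 + 8 * B' := by ring
        rw [ht, ht'] at this
        omega
      rcases Int.emod_two_eq_zero_or_one (t - r) with h | h
      · obtain ⟨c, hc⟩ : ∃ c, t = r + 2 * c := ⟨(t - r) / 2, by omega⟩
        refine step hH hP hv (k := B' - 2) hd ?_
        rw [← hB, hB', ht, hr, hc]
        exact ⟨c, by ring⟩
      · obtain ⟨c, hc⟩ : ∃ c, t' = r + 2 * c := ⟨(t' - r) / 2, by omega⟩
        refine step hH hP hv (k := B' + 2) hd ?_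
        rw [← hB, hB', ht', hr, hc]
        exact ⟨-c, by ring⟩
  · obtain ⟨i, hi⟩ : ∃ i, B = 2 * i + 1 := ⟨B / 2, by omega⟩
    rcases Int.emod_two_eq_zero_or_one i with h | h
    · obtain ⟨t, ht⟩ := odd_sq (k := i + 1) (by omega)
      refine step hH hP hv (k := i + 1) hd ?_
      rw [← hB, hi, ht, hr]
      exact ⟨2 * r - 2 * t, by ring⟩
    · obtain ⟨t, ht⟩ := odd_sq (k := i) (by omega)
      refine step hH hP hv (k := i) hd ?_
      rw [← hB, hi, ht, hr]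
      exact ⟨2 * t - 2 * r, by ring⟩

/-- **`C_18`.** -/
theorem eighteen_case (hH : H.IsCohomology) {v0 v : Fin 23 → ℤ} (hv0 : H.IsHodge v0)
    (h18 : H.disc v0 = 18) (hv : H.IsHodge v) (h0 : H.disc v % 18 ≠ 0)
    (h12 : H.disc v % 18 ≠ 12) : Sol H := by
  have hd : H.disc v0 = 2 * 3 ^ 2 := by rw [h18]; norm_num
  have hev := disc_even hH v
  -- `v0.h` is divisible by three
  obtain ⟨a, ha⟩ : ∃ a, H.ip v0 H.h = 3 * a := by
    have h1 : H.ip H.h v0 ^ 2 = 3 * (H.ip v0 v0 - 6) := by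
      unfold disc at h18
      linarith
    have h2 : (3 : ℤ) ∣ H.ip H.h v0 := Int.prime_three.dvd_of_dvd_pow ⟨_, h1⟩
    rw [hH.comm v0 H.h]
    exact h2
  obtain ⟨B, hB⟩ : ∃ B, Bf H v0 v = 3 * B := ⟨H.ip v0 v - a * H.ip v H.h, by
    unfold Bf
    rw [ha]
    ring⟩
  have hB2 : Bf H v0 ((2 : ℤ) • v) = 3 * (2 * B) := by
    rw [Bf_smul_right hH, hB]
    ring
  have hd2 : H.disc ((2 : ℤ) • v) = 4 * H.disc v := by
    have := hH.disc_comb 2 0 v
    rw [zero_smul, add_zero] at this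
    rw [this]
    ring
  have hw : H.IsHodge ((2 : ℤ) • v) := H.isHodge_smul 2 hv
  rcases disc_mod_three (H := H) v with h3 | h3
  · have h6 : H.disc v % 18 = 6 := by omega
    obtain ⟨r, hr⟩ : ∃ r, H.disc v = 18 * r + 6 := ⟨H.disc v / 18, by omega⟩
    by_cases hB3 : B % 3 = 0
    · obtain ⟨c, hc⟩ : ∃ c, B = 3 * c := ⟨B / 3, by omega⟩
      obtain ⟨t, ht⟩ := odd_sq (k := 2 * c - 1) (by omega)
      refine step hH hv0 hw (k := 3 * (2 * c - 1)) hd ?_
      rw [hB2, hd2, hc, hr, mul_pow, ht]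
      exact ⟨2 * t - 4 * r - 1, by ring⟩
    · -- `k = 2 B - ε` divisible by three
      obtain ⟨ε, c, hε, hc⟩ : ∃ ε c : ℤ, ε ^ 2 = 1 ∧ 2 * B - ε = 3 * c := by
        rcases (by omega : B % 3 = 1 ∨ B % 3 = 2) with h | h
        · exact ⟨-1, (2 * B + 1) / 3, by norm_num, by omega⟩
        · exact ⟨1, (2 * B - 1) / 3, by norm_num, by omega⟩
      have hodd : c % 2 = 1 := by
        have h1 : ε = 1 ∨ ε = -1 := by
          have : (ε - 1) * (ε + 1) = 0 := by linear_combination hε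
          rcases mul_eq_zero.1 this with h | h
          · left; linarith
          · right; linarith
        omega
      obtain ⟨t, ht⟩ := odd_sq (k := c) hodd
      refine step hH hv0 hw (k := 3 * c) hd ?_
      have e1 : 3 * (2 * B) - 3 * (3 * c) = 3 * ε := by linarith
      rw [hB2, hd2, hr, mul_pow, ht, e1]
      refine ⟨ε * (6 * t - 12 * r - 3), ?_⟩
      linear_combination -12 * (6 * t - 12 * r - 3) * hε
  · -- `h` has a product prime to three with `v`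
    obtain ⟨r, hr⟩ : ∃ r, H.disc v = 6 * r + 2 := ⟨H.disc v / 6, by omega⟩
    obtain ⟨ε, hε, hk⟩ : ∃ ε : ℤ, (ε = 1 ∨ ε = -1) ∧ (2 * B - ε) % 3 ≠ 0 := by
      by_cases h : (2 * B - 1) % 3 = 0
      · exact ⟨-1, Or.inr rfl, by omega⟩
      · exact ⟨1, Or.inl rfl, h⟩
    have hε2 : ε ^ 2 = 1 := by rcases hε with h | h <;> rw [h] <;> norm_num
    set k : ℤ := 2 * B - ε with hkdef
    have hkodd : k % 2 = 1 := by omega
    obtain ⟨t, ht⟩ : ∃ t, k ^ 2 = 24 * t + 1 := by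
      obtain ⟨t1, ht1⟩ := odd_sq hkodd
      have : k ^ 2 % 3 = 1 := by
        rcases (by omega : k % 3 = 1 ∨ k % 3 = 2) with h | h
        · obtain ⟨j, hj⟩ : ∃ j, k = 3 * j + 1 := ⟨k / 3, by omega⟩
          have : k ^ 2 = 3 * (3 * j ^ 2 + 2 * j) + 1 := by rw [hj]; ring
          omega
        · obtain ⟨j, hj⟩ : ∃ j, k = 3 * j + 2 := ⟨k / 3, by omega⟩
          have : k ^ 2 = 3 * (3 * j ^ 2 + 4 * j + 1) + 1 := by rw [hj]; ring
          omega
      exact ⟨k ^ 2 / 24, by omega⟩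
    refine step hH hv0 hw (k := k) hd ?_
    have e1 : 3 * (2 * B) - 3 * k = 3 * ε := by rw [hkdef]; ring
    rw [hB2, hd2, hr, ht, e1]
    refine ⟨ε * (2 * t - 4 * r - 1), ?_⟩
    linear_combination -12 * (2 * t - 4 * r - 1) * hε2

end Pool.Agent.Run7.h762.GS
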