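import Pool.Agent.Run7.h762.GS.Planes

/-!
# The local conditions hold if the rank is at least thirteen
-/

set_option autoImplicit false

namespace Pool.Agent.Run7.h762.GS

open Finset Module Pool.Agent.Y95.Q Pool.Agent.Y95.Q.H4 Pool.Agent.Run7.h762.SC
open Pool.Agent.X328.CF (disc_nonneg disc_even disc_mod_three exists_sat)

variable {X : CubicFourfold} {H : H4 X}

/-- the reduction modulo `p` -/
def redp (p : ℕ) : (Fin 23 → ℤ) →+ (Fin 23 → ZMod p) where
  toFun v i := (v i : ZMod p)
  map_zero' := by ext i; simp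
  map_add' u v := by ext i; simp

theorem redp_apply (p : ℕ) (v : Fin 23 → ℤ) (i : Fin 23) : redp p v i = (v i : ZMod p) := rfl

theorem redp_smul (p : ℕ) (n : ℤ) (v : Fin 23 → ℤ) : redp p (n • v) = (n : ZMod p) • redp p v := by
  ext i
  simp [redp_apply]

/-- a basis of the group of the Hodge classes is independent modulo `p` -/
theorem basis_indep_p (p : ℕ) [hp : Fact p.Prime] {r : ℕ} (b : Basis (Fin r) ℤ H.hodge) :
    LinearIndependent (ZMod p) fun i => redp p (b i : Fin 23 → ℤ) := by
  classical
  have hp0 : (p : ℤ) ≠ 0 := by exact_mod_cast hp.out.ne_zero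
  rw [Fintype.linearIndependent_iff]
  intro c hc i
  let x : H.hodge := ∑ i, ((c i).val : ℤ) • b i
  have h1 : redp p (x : Fin 23 → ℤ) = 0 := by
    rw [← hc]
    simp only [x, Submodule.coe_sum, Submodule.coe_smul, map_sum]
    refine sum_congr rfl fun i _ => ?_
    rw [redp_smul]
    congr 1
    simp
  obtain ⟨w, hw⟩ : ∃ w, (x : Fin 23 → ℤ) = (p : ℤ) • w := by
    refine ⟨fun i => (x : Fin 23 → ℤ) i / p, ?_⟩
    ext i
    have h1 : ((x : Fin 23 → ℤ) i : ZMod p) = 0 := congrFun h1 i
    have h2 : (p : ℤ) ∣ (x : Fin 23 → ℤ) i := (ZMod.intCast_zmod_eq_zero_iff_dvd _ p).1 h1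
    rw [Pi.smul_apply, smul_eq_mul]
    exact (Int.mul_ediv_cancel' h2).symm
  have hwH : H.IsHodge w := H.isHodge_of_smul hp0 (by rw [← hw]; exact x.2)
  let w' : H.hodge := ⟨w, hwH⟩
  have h2 : x = (p : ℤ) • w' := Subtype.ext hw
  have h3 : b.repr x i = ((c i).val : ℤ) := by
    simp only [x, map_sum, map_smul, Finsupp.coe_finsetSum, Finset.sum_apply,
      Finsupp.smul_apply, Basis.repr_self, smul_eq_mul, Finsupp.single_apply]
    rw [Finset.sum_eq_single i]
    · simp
    · intro j _ hj
      simp [hj]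
    · simp
  have h4 : b.repr x i = p * b.repr w' i := by
    rw [h2, map_smul, Finsupp.smul_apply, smul_eq_mul]
  have h5 : ((c i).val : ℤ) = p * b.repr w' i := h3.symm.trans h4
  have h6 : (((c i).val : ℤ) : ZMod p) = c i := by simp
  rw [← h6, h5]
  push_cast
  rw [ZMod.natCast_self, zero_mul]

/-- **A bound for the rank**, if the form has rank at most one on the Hodge classes modulo `p`. -/
theorem rank_bound (hH : H.IsCohomology) (p : ℕ) [hp : Fact p.Prime] (φ : H.hodge → ZMod p)
    (c : ZMod p) (h : ∀ v w : H.hodge, ((H.ip (v : Fin 23 → ℤ) w : ℤ) : ZMod p) = c * φ v * φ w) :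
    H.rank ≤ 12 := by
  classical
  let r := finrank ℤ H.hodge
  let b : Basis (Fin r) ℤ H.hodge := Module.finBasis ℤ H.hodge
  have hrank : H.rank = r := rank_eq H
  let R : Matrix (Fin r) (Fin 23) (ZMod p) := fun k => redp p (b k : Fin 23 → ℤ)
  let Bm : Matrix (Fin 23) (Fin 23) (ZMod p) := H.B.map (Int.castRingHom (ZMod p))
  have hRind : LinearIndependent (ZMod p) R.row := basis_indep_p p b
  have hR : R.rank = r := by
    have h1 : R.rank = Fintype.card (Fin r) := LinearIndependent.rank_matrix hRind
    rw [h1, Fintype.card_fin]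
  have hBdet : IsUnit Bm.det := by
    have h1 : Bm.det = (Int.castRingHom (ZMod p)) H.B.det := by
      rw [RingHom.map_det]
      rfl
    rw [h1]
    exact hH.unimodular.map _
  -- the kernel of `R * Bm`
  have hRB : (R * Bm).rank = r := by
    rw [Matrix.rank_mul_eq_left_of_isUnit_det _ _ hBdet, hR]
  have hker : finrank (ZMod p) (LinearMap.ker (R * Bm).mulVecLin) + r = 23 := by
    have h1 := LinearMap.finrank_range_add_finrank_ker (R * Bm).mulVecLin
    have h2 : finrank (ZMod p) (LinearMap.range (R * Bm).mulVecLin) = r := hRB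
    rw [h2, finrank_fin_fun] at h1
    omega
  -- the Gram matrix
  have hG : R * Bm * R.transpose = Matrix.of fun i j => c * φ (b i) * φ (b j) := by
    ext i j
    rw [Matrix.of_apply, ← h (b i) (b j)]
    simp only [Matrix.mul_apply, Matrix.transpose_apply, ip, Int.cast_sum, Int.cast_mul]
    rw [sum_comm]
    refine sum_congr rfl fun x _ => ?_
    rw [sum_mul]
    refine sum_congr rfl fun y _ => ?_
    rfl
  -- the kernel of the functional
  let ψ : (Fin r → ZMod p) →ₗ[ZMod p] ZMod p :=
    { toFun := fun x => ∑ j, φ (b j) * x j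
      map_add' := fun x y => by simp only [Pi.add_apply, mul_add, sum_add_distrib]
      map_smul' := fun a x => by
        simp only [Pi.smul_apply, smul_eq_mul, mul_sum, RingHom.id_apply]
        refine sum_congr rfl fun j _ => ?_
        ring }
  have hψ : r ≤ finrank (ZMod p) (LinearMap.ker ψ) + 1 := by
    have h1 := LinearMap.finrank_range_add_finrank_ker ψ
    have h2 : finrank (ZMod p) (LinearMap.range ψ) ≤ 1 := by
      refine (Submodule.finrank_le _).trans ?_
      rw [finrank_self]
    rw [finrank_fin_fun] at h1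
    omega
  -- the transpose maps the kernel injectively
  have hinj : Function.Injective R.transpose.mulVecLin := by
    have h1 := Matrix.mulVec_injective_iff (M := R.transpose)
    exact h1.2 hRind
  have hmap : ∀ x : LinearMap.ker ψ, R.transpose.mulVecLin x ∈
      LinearMap.ker (R * Bm).mulVecLin := by
    intro x
    have hx : ∑ j, φ (b j) * (x : Fin r → ZMod p) j = 0 := x.2
    rw [LinearMap.mem_ker]
    change (R * Bm).mulVec (R.transpose.mulVec x) = 0
    rw [Matrix.mulVec_mulVec, hG]
    ext i
    rw [Matrix.mulVec, Pi.zero_apply]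
    simp only [dotProduct, Matrix.of_apply]
    have : ∀ j, c * φ (b i) * φ (b j) * (x : Fin r → ZMod p) j =
        c * φ (b i) * (φ (b j) * (x : Fin r → ZMod p) j) := fun j => by ring
    simp only [this, ← mul_sum, hx, mul_zero]
  have hle : finrank (ZMod p) (LinearMap.ker ψ) ≤
      finrank (ZMod p) (LinearMap.ker (R * Bm).mulVecLin) := by
    let g : LinearMap.ker ψ →ₗ[ZMod p] LinearMap.ker (R * Bm).mulVecLin :=
      LinearMap.codRestrict _ (R.transpose.mulVecLin ∘ₗ (LinearMap.ker ψ).subtype) hmap
    refine LinearMap.finrank_le_finrank_of_injective (f := g) ?_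
    intro x y hxy
    have h1 : R.transpose.mulVecLin x = R.transpose.mulVecLin y := congrArg Subtype.val hxy
    exact Subtype.ext (hinj h1)
  omega

/-- **The local conditions hold if the rank is at least thirteen.** -/
theorem loc_of_rank (hH : H.IsCohomology) (hr : 13 ≤ H.rank) : Loc H := by
  refine ⟨?_, ?_, ?_⟩
  · by_contra hcon
    push Not at hcon
    have := rank_le hH hcon
    omega
  · by_contra hcon
    have hmod : ∀ v, H.IsHodge v → H.disc v % 18 = 0 ∨ H.disc v % 18 = 12 := by
      intro v hv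
      by_contra h
      push Not at h
      exact hcon ⟨v, hv, h.1, h.2⟩
    -- the squares modulo three
    have hQ : ∀ v : Fin 23 → ℤ, H.IsHodge v → ((H.ip v v : ℤ) : ZMod 3) = 0 ∨
        ((H.ip v v : ℤ) : ZMod 3) = 1 := by
      intro v hv
      have h1 := hmod v hv
      have h2 : (3 : ℤ) ∣ H.ip H.h v := by
        have h3 : (3 : ℤ) ∣ H.ip H.h v ^ 2 := by
          have : H.ip H.h v ^ 2 = 3 * H.ip v v - H.disc v := by unfold disc; ring
          rw [this]
          omega
        exact Int.prime_three.dvd_of_dvd_pow h3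
      obtain ⟨t, ht⟩ := h2
      have h4 : H.disc v = 3 * (H.ip v v - 3 * t ^ 2) := by
        unfold disc
        rw [ht]
        ring
      have h5 : H.ip v v % 3 = 0 ∨ H.ip v v % 3 = 1 := by
        rw [h4] at h1
        generalize t ^ 2 = T at h1
        omega
      rcases h5 with h | h
      · left
        exact (ZMod.intCast_zmod_eq_zero_iff_dvd _ 3).2 (Int.dvd_of_emod_eq_zero h)
      · right
        have : ((H.ip v v : ℤ) : ZMod 3) = ((1 : ℤ) : ZMod 3) :=
          (ZMod.intCast_eq_intCast_iff_dvd_sub _ _ 3).2 (by push_cast; omega)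
        rw [this, Int.cast_one]
    by_cases hu : ∃ u, H.IsHodge u ∧ ((H.ip u u : ℤ) : ZMod 3) = 1
    · obtain ⟨u, hu, hu1⟩ := hu
      have hb : H.rank ≤ 12 := by
        refine @rank_bound X H hH 3 ⟨Nat.prime_three⟩
          (fun v => ((H.ip u (v : Fin 23 → ℤ) : ℤ) : ZMod 3)) 1 ?_
        intro v w
        set a : ℤ := H.ip u v with ha
        set b : ℤ := H.ip u w with hb
        have q1 := hQ _ (H.isHodge_sub v.2 (H.isHodge_smul a hu))
        have q2 := hQ _ (H.isHodge_add hu (H.isHodge_sub v.2 (H.isHodge_smul a hu)))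
        have q3 := hQ _ (H.isHodge_sub w.2 (H.isHodge_smul b hu))
        have q4 := hQ _ (H.isHodge_add hu (H.isHodge_sub w.2 (H.isHodge_smul b hu)))
        have q5 := hQ _ (H.isHodge_add (H.isHodge_sub v.2 (H.isHodge_smul a hu))
          (H.isHodge_sub w.2 (H.isHodge_smul b hu)))
        have q6 := hQ _ (H.isHodge_add hu (H.isHodge_add (H.isHodge_sub v.2 (H.isHodge_smul a hu))
          (H.isHodge_sub w.2 (H.isHodge_smul b hu))))
        simp only [ip_add_left, ip_add_right, ip_sub_left, ip_sub_right, ip_smul_left,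
          ip_smul_right, hH.comm (v : Fin 23 → ℤ) u, hH.comm (w : Fin 23 → ℤ) u,
          hH.comm (w : Fin 23 → ℤ) v, ← ha, ← hb] at q1 q2 q3 q4 q5 q6
        push_cast at q1 q2 q3 q4 q5 q6 ⊢
        rw [hu1] at q1 q2 q3 q4 q5 q6
        revert q1 q2 q3 q4 q5 q6
        generalize (a : ZMod 3) = a'
        generalize (b : ZMod 3) = b'
        generalize ((H.ip (v : Fin 23 → ℤ) w : ℤ) : ZMod 3) = c'
        generalize ((H.ip (v : Fin 23 → ℤ) v : ℤ) : ZMod 3) = d'
        generalize ((H.ip (w : Fin 23 → ℤ) w : ℤ) : ZMod 3) = e'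
        revert a' b' c' d' e'
        decide
      omega
    · have hQ0 : ∀ v : Fin 23 → ℤ, H.IsHodge v → ((H.ip v v : ℤ) : ZMod 3) = 0 := fun v hv =>
        (hQ v hv).resolve_right fun h => hu ⟨v, hv, h⟩
      have hb : H.rank ≤ 12 := by
        refine @rank_bound X H hH 3 ⟨Nat.prime_three⟩ (fun _ => 0) 0 ?_
        intro v w
        have q1 := hQ0 _ v.2
        have q2 := hQ0 _ w.2
        have q3 := hQ0 _ (H.isHodge_add v.2 w.2)
        simp only [ip_add_left, ip_add_right, hH.comm (w : Fin 23 → ℤ) v] at q3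
        push_cast at q3
        rw [q1, q2] at q3
        have : (2 : ZMod 3) * ((H.ip (v : Fin 23 → ℤ) w : ℤ) : ZMod 3) = 0 := by
          linear_combination q3
        have h2 : ∀ x : ZMod 3, 2 * x = 0 → x = 0 := by decide
        rw [h2 _ this]
        ring
      omega
  · intro p hp hp2 hp3
    by_contra hcon
    push Not at hcon
    have := Fact.mk hp
    have hpp := Nat.prime_iff_prime_int.1 hp
    have h2 : (2 : ZMod p) ≠ 0 := by
      intro h
      have : ((2 : ℕ) : ZMod p) = 0 := by exact_mod_cast h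
      rw [ZMod.natCast_eq_zero_iff] at this
      exact hp2 ((Nat.prime_dvd_prime_iff_eq hp Nat.prime_two).1 this)
    have h3 : (3 : ZMod p) ≠ 0 := by
      intro h
      have : ((3 : ℕ) : ZMod p) = 0 := by exact_mod_cast h
      rw [ZMod.natCast_eq_zero_iff] at this
      have := (Nat.prime_dvd_prime_iff_eq hp Nat.prime_three).1 this
      omega
    have hb : H.rank ≤ 12 := by
      refine rank_bound hH p (fun v => ((H.ip (v : Fin 23 → ℤ) H.h : ℤ) : ZMod p)) (3⁻¹) ?_
      intro v w
      have q1 := hcon _ v.2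
      have q2 := hcon _ w.2
      have q3 := hcon _ (H.isHodge_add v.2 w.2)
      have e := disc_two hH 1 1 (v : Fin 23 → ℤ) w
      rw [one_smul, one_smul] at e
      have q4 : (p : ℤ) ∣ 2 * Bf H v w := by
        have : 2 * Bf H v w = H.disc ((v : Fin 23 → ℤ) + w) - H.disc v - H.disc w := by
          rw [e]
          ring
        rw [this]
        exact dvd_sub (dvd_sub q3 q1) q2
      have q5 : ((2 * Bf H (v : Fin 23 → ℤ) w : ℤ) : ZMod p) = 0 :=
        (ZMod.intCast_zmod_eq_zero_iff_dvd _ p).2 q4
      push_cast at q5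
      have q6 := (mul_eq_zero.1 q5).resolve_left h2
      unfold Bf at q6
      push_cast at q6
      field_simp
      linear_combination q6
    omega

end Pool.Agent.Run7.h762.GS
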